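import Pool.Agent.Run7.h741.CR.B5
import Pool.Agent.N883.FF.End

/-!
# BSD over cyclic cubic fields ramified at three: the curves `y² + y = x³` and `y² + q y = x³`
over `L = ℚ(θ)`, `θ³ = 3nθ + nu`, `4n = u² + 3v²`
-/

set_option autoImplicit false
set_option linter.unusedSectionVars false

open NumberField IsDedekindDomain

namespace Pool.Agent.Run7.h741.CR

open Pool.Agent.Y692.QS hiding chi
open Pool.Agent.Y715.T.Rec (cs)
open Pool.Agent.Y715.T.RecG (Pq)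
open Pool.Agent.Y405.CT (cs_starG)
open Pool.Agent.Y703.CT (Dt pD Ker Tw ShK MwK Sel1)
open Pool.Agent.R432.C (ED)
open Pool.Agent.R432.Q (tw_neg)
open Pool.Agent.R432.V (ef)
open Pool.Agent.TH841.NF.D (Sha)
open Pool.Agent.Y715.T.Gi Pool.Agent.Y715.T.Nr Pool.Agent.Y715.T.Df Pool.Agent.Y715.T.Ell
open Pool.Agent.N883.FF (nq KerB IsHLB pB partsB a_neB)
open Pool.Agent.N883.FF.Lfe (gB)
open Pool.Agent.Run7.h741.CC (tw_cube dt_star pD_star dt_q pD_q ker_q nine_q gg_val baseK)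

section desc

variable {i₀ : QB} {hi : i₀ ^ 2 + i₀ + 1 = 0}

/-- the descent -/
theorem descB {J : Type} [Fintype J] [Nonempty J] {π : J → Ei} {e : J → ZMod 3} {i : ZMod 3}
    (hD : Dt π e) (hi0 : i ≠ 0) (hk : KerB π e i) {u : QB} {a : GK i₀ → ZMod 3}
    (hT : Tw hi (pB π e i) u a) : ShK hi a ∧ MwK hi a := by
  have hne := Pool.Agent.N883.FF.pB_ne (i := i) hD
  have hsel : Sel1 hi a := partsB.sel partsB.loc3 partsB.ram partsB.unr J π e i hD hi0 hk i₀ hi u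
    a hT
  exact ⟨Pool.Agent.Y155.CT.t_SHK _ hne i₀ hi u a hT hsel,
    Pool.Agent.Y155.CT.t_MWK _ hne i₀ hi u a hT (a_neB hD hT) hsel⟩

end desc

/-- the curve of one twist over `K` -/
theorem baseB {K : Type} [Field K] [NumberField K] (j : Ei ≃+* 𝓞 K) {J : Type} [Fintype J]
    [Nonempty J] {π : J → Ei} {e : J → ZMod 3} {i : ZMod 3} (hD : Dt π e) (hi0 : i ≠ 0)
    (hk : KerB π e i) {D β : Ei} (hβ : β ≠ 0)
    (hs : D = β ^ 3 * pB π e i ∨ D = β ^ 3 * -pB π e i) :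
    Finite (ED ((j D : 𝓞 K) : K)).toAffine.Point ∧
    ∀ (n : ℕ) (y : Sha (ED ((j D : 𝓞 K) : K))), 3 ^ n • y = 0 → y = 0 := by
  have hne0 : pB π e i ≠ 0 := Pool.Agent.N883.FF.pB_ne hD
  have hne' : D ≠ 0 := by
    rcases hs with h | h
    · rw [h]
      exact mul_ne_zero (pow_ne_zero 3 hβ) hne0
    · rw [h]
      exact mul_ne_zero (pow_ne_zero 3 hβ) (neg_ne_zero.2 hne0)
  have hdesc : ∀ (i₀ : QB) (hi : i₀ ^ 2 + i₀ + 1 = 0) (u : QB) (b : GK i₀ → ZMod 3),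
      Tw hi D u b → ShK hi b ∧ MwK hi b := by
    intro i₀ hi u b hT
    rcases hs with h | h
    · rw [h] at hT
      exact descB hD hi0 hk (tw_cube hβ hT)
    · rw [h] at hT
      exact descB hD hi0 hk (tw_neg (tw_cube hβ hT))
  exact ⟨(Pool.Agent.Y696.CTK.parts.mwt Pool.Agent.Y696.CTK.parts.trf K j _ hne'
      fun i₀ hi u b hT => (hdesc i₀ hi u b hT).2).1,
    Pool.Agent.Y696.CTK.parts.sht Pool.Agent.Y696.CTK.parts.trf K j _ hne'
      fun i₀ hi u b hT => (hdesc i₀ hi u b hT).1⟩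

section data

variable {J : Type} [Fintype J] {π : J → Ei} {e : J → ZMod 3} {i : ZMod 3}

lemma pB_star : pB (fun k => star (π k)) e (-i) = star (pB π e i) := by
  unfold pB
  rw [star_mul', pD_star]
  congr 1
  revert i
  decide

lemma kerB_star (hD : Dt π e) (hk : KerB π e i) : KerB (fun k => star (π k)) e (-i) := by
  intro v hv
  apply hk v
  intro j
  have h1 := hv j
  have h2 : nq (star (π j)) = nq (π j) := by
    unfold nq
    rw [nr_star]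
  have h3 : ∑ k, e k * cs (star (π j)) (star (π k)) * (v k - v j) =
      -∑ k, e k * cs (π j) (π k) * (v k - v j) := by
    rw [← Finset.sum_neg_distrib]
    refine Finset.sum_congr rfl fun k _ => ?_
    by_cases hjk : k = j
    · subst hjk
      ring
    · rw [cs_starG (hD.pq j) (hD.nd k j hjk)]
      ring
  simp only [h2, h3] at h1
  linear_combination -h1

end data

/-- the base curve `y² + c y = x³` over `ℚ(ω)` -/
structure Bs (c : ℕ) (g0 : ℂ → Ei → ℂ) : Prop where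
  c0 : c ≠ 0
  e0 : EP g0
  v0 : ∀ α, Pq α → ¬ α ∣ ((c : ℕ) : Ei) → ∀ s, g0 s α =
    toC (w ^ (-cs α ((c : ℕ) : Ei)).val * α) * ((nr α : ℤ) : ℂ) ^ (-s)
  p0 : ∀ (K : Type) [Field K] [NumberField K] [IsCyclotomicExtension {3} ℚ K] (j : Ei ≃+* 𝓞 K),
    Finite (ED ((j ((c : ℕ) : Ei) : 𝓞 K) : K)).toAffine.Point ∧
    ∀ (m : ℕ) (y : Sha (ED ((j ((c : ℕ) : Ei) : 𝓞 K) : K))), 3 ^ m • y = 0 → y = 0

theorem bs_one : Bs 1 gO := by
  refine ⟨one_ne_zero, ep_one, fun α hα _ s => ?_, fun K _ _ _ j => ?_⟩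
  · rw [gO_val hα, Nat.cast_one, Pool.Agent.Y715.T.RecG.cs_one hα.prime hα.norm, neg_zero,
      ZMod.val_zero, pow_zero, one_mul]
  · have e : ((j ((1 : ℕ) : Ei) : 𝓞 K) : K) = 1 := by
      rw [Nat.cast_one, map_one]
      rfl
    rw [e]
    exact ⟨Pool.Agent.Y696.CTE.fin_one, fun m y hy => Pool.Agent.Y574.CTE.sh1 K j m y hy⟩

theorem bs_q {q : ℕ} (hq : q.Prime) (hq9 : q % 9 = 2 ∨ q % 9 = 5) : ∃ g0, Bs q g0 := by
  have h9 : ¬ (9 : ℤ) ∣ nr (pD (fun _ : Unit => -((q : ℕ) : Ei)) (fun _ => (1 : ZMod 3))) - 1 := by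
    rw [pD_q, nr_neg, nr_nat]
    have h := nine_q hq9 (n := 1) rfl
    simpa using h
  obtain ⟨A0, hA01, hA02⟩ := Pool.Agent.Y696.CTE.val_ne (dt_q hq hq9) ker_q h9
  refine ⟨_, hq.ne_zero, ep_gg (dt_q hq hq9).pq hA01 hA02, fun α hα h1 s => ?_,
    fun K _ _ _ j => ?_⟩
  · have hq1 : ((q : ℕ) : Ei) * 1 =
        pD (fun _ : Unit => -((q : ℕ) : Ei)) (fun _ => (1 : ZMod 3)) ∨
        ((q : ℕ) : Ei) * 1 = -pD (fun _ : Unit => -((q : ℕ) : Ei)) (fun _ => (1 : ZMod 3)) := by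
      right
      rw [pD_q, neg_neg, mul_one]
    have a0 := gg_val (dt_q hq hq9) hq1 hα h1
      (fun h => hα.prime.not_isUnit (isUnit_of_dvd_one h)) s
    rw [Pool.Agent.Y715.T.RecG.cs_one hα.prime hα.norm, neg_zero, ZMod.val_zero, pow_zero,
      mul_one] at a0
    exact a0
  · refine baseK j (dt_q hq hq9) ker_q h9 (one_ne_zero) ?_
    right
    rw [pD_q, neg_neg, one_pow, one_mul]

/-- the points -/
theorem ptsB {c n : ℕ} {g0 : ℂ → Ei → ℂ} (B : Bs c g0) {β : Ei} (hβ : β ≠ 0)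
    (mul : β * star β = ((n : ℕ) : Ei)) {J : Type} [Fintype J] [Nonempty J] {π : J → Ei}
    {e : J → ZMod 3} {i : ZMod 3} (hD : Dt π e) (hi0 : i ≠ 0)
    (hDp : ((c : ℕ) : Ei) * (n : ℕ) * β = pB π e i ∨ ((c : ℕ) : Ei) * (n : ℕ) * β = -pB π e i)
    (hk : KerB π e i) : PtsG c n β := by
  intro K _ _ _ j t ht
  have h3 : t = 0 ∨ t = 1 ∨ t = 2 := by omega
  rcases h3 with rfl | rfl | rfl
  · rw [pow_zero, mul_one]
    exact B.p0 K j
  · refine baseB j hD hi0 hk one_ne_zero ?_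
    rw [pow_one, one_pow, one_mul, one_mul, ← mul_assoc]
    exact hDp
  · refine baseB j (dt_star hD) (neg_ne_zero.2 hi0) (kerB_star hD hk) hβ ?_
    have e2 : ((c : ℕ) : Ei) * (((n : ℕ) : Ei) * β) ^ 2 =
        β ^ 3 * (((c : ℕ) : Ei) * (n : ℕ) * star β) := by
      linear_combination (-((c : ℕ) : Ei) * (n : ℕ) * β ^ 2) * mul
    have h0 : star (((c : ℕ) : Ei) * (n : ℕ) * β) = ((c : ℕ) : Ei) * (n : ℕ) * star β := by
      rw [star_mul', star_mul', star_natCast, star_natCast]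
    rw [e2, pB_star, ← h0]
    rcases hDp with h | h
    · left; rw [h]
    · right; rw [h, star_neg]

/-- the functions -/
theorem triB {c n : ℕ} {g0 : ℂ → Ei → ℂ} (B : Bs c g0) {β : Ei} (hn0 : n ≠ 0)
    (mul : β * star β = ((n : ℕ) : Ei)) {J : Type} [Fintype J] [Nonempty J] {π : J → Ei}
    {e : J → ZMod 3} {i : ZMod 3} (hD : Dt π e) (hi0 : i ≠ 0)
    (hDp : ((c : ℕ) : Ei) * (n : ℕ) * β = pB π e i ∨ ((c : ℕ) : Ei) * (n : ℕ) * β = -pB π e i)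
    (hk : KerB π e i) : ∃ g1 g2, TriG c n β g0 g1 g2 := by
  obtain ⟨A1, hA1, hA1'⟩ := partsB.anb J π e i hD hi0
  obtain ⟨A2, hA2, hA2'⟩ := partsB.anb J _ e _ (dt_star hD) (neg_ne_zero.2 hi0)
  have hcn : ∀ α, Pq α → ¬ α ∣ ((n : ℕ) : Ei) → ¬ α ∣ ((n : ℕ) : Ei) * β ∧
      ¬ α ∣ star (((n : ℕ) : Ei) * β) := by
    intro α hα h
    have h1 : ((n : ℕ) : Ei) * β * star (((n : ℕ) : Ei) * β) = ((n : ℕ) : Ei) ^ 3 := by
      rw [star_mul', star_natCast]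
      linear_combination ((n : ℕ) : Ei) ^ 2 * mul
    constructor
    · intro h2
      exact h (hα.prime.dvd_of_dvd_pow (h1 ▸ h2.mul_right _))
    · intro h2
      exact h (hα.prime.dvd_of_dvd_pow (h1 ▸ h2.mul_left _))
  refine ⟨_, _, B.c0, hn0, mul, B.e0, ep_gB hD.pq hA1 (hA1' hk).1,
    ep_gB (dt_star hD).pq hA2 (hA2' (kerB_star hD hk)).1, B.v0, fun α hα h1 h2 s => ?_,
    fun α hα h1 h2 s => ?_⟩
  · exact gB_val hD (by rw [← mul_assoc]; exact hDp) hα h1 (hcn α hα h2).1 s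
  · refine gB_val (dt_star hD) ?_ hα h1 (hcn α hα h2).2 s
    have h0 : star (((c : ℕ) : Ei) * (n : ℕ) * β) =
        ((c : ℕ) : Ei) * star (((n : ℕ) : Ei) * β) := by
      rw [star_mul', star_mul', star_natCast, star_mul', mul_assoc]
    rw [pB_star, ← h0]
    rcases hDp with h | h
    · left; rw [h]
    · right; rw [h, star_neg]

/-- **BSD-type facts for `y² + c y = x³` over the cyclic cubic field `ℚ(θ)`, ramified at three.** -/
theorem fieldB {c : ℕ} (hc : c = 1 ∨ (c.Prime ∧ (c % 9 = 2 ∨ c % 9 = 5))) {u v : ℤ} {n : ℕ}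
    (hn : 4 * (n : ℤ) = u ^ 2 + 3 * v ^ 2) (hsq : Squarefree n) (h3n : ¬ 3 ∣ n) (hv : v ≠ 0)
    {J : Type} [Fintype J] [Nonempty J] {π : J → Ei} {e : J → ZMod 3} {i : ZMod 3}
    (hD : Dt π e) (hi0 : i ≠ 0)
    (hDp : ((c : ℕ) : Ei) * (n : ℕ) * bt u v = pB π e i ∨
      ((c : ℕ) : Ei) * (n : ℕ) * bt u v = -pB π e i)
    (hk : KerB π e i) {L : Type} [Field L] [NumberField L] (th : L)
    (hd : Module.finrank ℚ L = 3)
    (hth : th ^ 3 = 3 * (n : L) * th + (n : L) * (u : L)) :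
    Finite (ED ((c : ℕ) : L)).toAffine.Point ∧
    (∀ (k : ℕ) (y : Sha (ED ((c : ℕ) : L))), 3 ^ k • y = 0 → 3 • y = 0) ∧
    ∃ G : ℂ → ℂ, Differentiable ℂ G ∧ G 1 ≠ 0 ∧ ∀ s : ℂ, 3 / 2 < s.re →
      HasProd (fun p : {p : HeightOneSpectrum (𝓞 L) |
        ((3 * c * n : ℕ) : 𝓞 L) ∉ p.asIdeal} => ef ((c : ℕ) : 𝓞 L) s p.1) (G s) := by
  obtain ⟨g0, B⟩ : ∃ g0, Bs c g0 := by
    rcases hc with rfl | ⟨h1, h2⟩
    · exact ⟨_, bs_one⟩
    · exact bs_q h1 h2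
  have hn0 : n ≠ 0 := hsq.ne_zero
  have mul := bt_mul hn
  have hb0 : bt u v ≠ 0 := by
    intro h
    exact hv (congrArg QuadraticAlgebra.im h)
  obtain ⟨g1, g2, T⟩ := triB B hn0 mul hD hi0 hDp hk
  exact fieldG hn hsq h3n hv T (ptsB B hb0 mul hD hi0 hDp hk) th hd hth

end Pool.Agent.Run7.h741.CR
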