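import Pool.Agent.Run7.h741.CC.A5
import Pool.Agent.N883.FF.Lfe
import Pool.Agent.Y696.CTP.Half

/-!
# BSD over cyclic cubic fields ramified at three, part 1: the functions of the twists
-/

set_option autoImplicit false
set_option linter.unusedSectionVars false

open NumberField IsDedekindDomain Filter Complex
open scoped Topology Classical

namespace Pool.Agent.Run7.h741.CR

open Pool.Agent.Y692.QS hiding chi
open Pool.Agent.Y715.T.Rec (cs nn)
open Pool.Agent.Y715.T.RecG (Pq cs_spec)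
open Pool.Agent.Y696.CT
open Pool.Agent.R419.CE (pi_dvd_pD)
open Pool.Agent.Y696.CTK
open Pool.Agent.R432.C (pow_add_val)
open Pool.Agent.R432.V (hasProd_pq toC_norm chD_le gg_norm_lt gg_diff ip ip_inj)
open Pool.Agent.Y703.CT (IsHL chD Dt pD Ker)
open Pool.Agent.N883.FF (nq KerB IsHLB pB)
open Pool.Agent.N883.FF.Lfe (xB gB gB_one gB_mul sumB cs_pB)

/-- a function on the elements whose Euler product is entire and does not vanish at `1` -/
structure EP (g : ℂ → Ei → ℂ) : Prop where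
  lt : ∀ s : ℂ, 1 / 2 < s.re → ∀ α, Pq α → ‖g s α‖ < 1
  diff : ∀ α, α ≠ 0 → Differentiable ℂ (fun s => g s α)
  ex : ∃ F : ℂ → ℂ, Differentiable ℂ F ∧ F 1 ≠ 0 ∧ ∀ s : ℂ, 3 / 2 < s.re →
    HasProd (fun α : {α : Ei // Pq α} => (1 - g s α.1)⁻¹) (F s)

/-- **The Euler product without the factors at the primes dividing `M`.** -/
theorem EP.gm {g : ℂ → Ei → ℂ} (h : EP g) {M : Ei}
    (hM : M ≠ 0) : ∃ L : ℂ → ℂ, Differentiable ℂ L ∧ L 1 ≠ 0 ∧ ∀ s : ℂ, 3 / 2 < s.re →
      HasProd (fun α : {α : Ei // Pq α ∧ ¬ α ∣ M} => (1 - g s α.1)⁻¹) (L s) := by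
  classical
  obtain ⟨F, hF, hF1, hFp⟩ := h.ex
  set T : Finset Ei := (Pool.Agent.Y699.E.fin_pd hM).toFinset with hT
  have hmem : ∀ α : Ei, α ∈ T ↔ Pq α ∧ α ∣ M := by
    intro α
    rw [hT, Set.Finite.mem_toFinset]
    rfl
  refine ⟨fun s => F s * ∏ α ∈ T, (1 - g s α), ?_, ?_, fun s hs => ?_⟩
  · refine hF.mul ?_
    exact Differentiable.fun_finsetProd fun α hα =>
      (differentiable_const 1).sub (h.diff α ((hmem α).1 hα).1.prime.ne_zero)
  · refine mul_ne_zero hF1 (Finset.prod_ne_zero_iff.2 fun α hα => ?_)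
    intro h0
    have h1 := h.lt 1 (by norm_num) α ((hmem α).1 hα).1
    rw [← sub_eq_zero.1 h0, norm_one] at h1
    exact lt_irrefl _ h1
  · have h1 := hFp s hs
    have h2 : HasProd (fun α : {α : Ei // Pq α} => if α.1 ∣ M then 1 - g s α.1 else 1)
        (∏ α ∈ T, (1 - g s α)) := by
      have h3 := hasProd_prod_of_ne_finset_one (L := .unconditional _)
        (s := T.subtype (fun α => Pq α))
        (f := fun α : {α : Ei // Pq α} => if α.1 ∣ M then 1 - g s α.1 else 1)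
        (fun α hα => if_neg fun h => hα (by
          rw [Finset.mem_subtype]
          exact (hmem _).2 ⟨α.2, h⟩))
      have h4 : ∏ α ∈ T.subtype (fun α => Pq α), (if α.1 ∣ M then 1 - g s α.1 else 1) =
          ∏ α ∈ T, (1 - g s α) := by
        rw [← Finset.prod_subtype_of_mem (s := T) (p := fun α => Pq α)
          (fun α => (1 - g s α)) (fun α hα => ((hmem α).1 hα).1)]
        refine Finset.prod_congr rfl fun α hα => ?_
        rw [if_pos ((hmem _).1 (Finset.mem_subtype.1 hα)).2]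
      rwa [h4] at h3
    have h5 := h1.mul h2
    set f : {α : Ei // Pq α} → ℂ := fun α => if α.1 ∣ M then 1 else (1 - g s α.1)⁻¹ with hf
    have h6 : HasProd f (F s * ∏ α ∈ T, (1 - g s α)) := by
      refine h5.congr_fun fun α => ?_
      rw [hf]
      simp only
      split_ifs with h'
      · have h7 : (1 - g s α.1) ≠ 0 := by
          intro h0
          have h8 := h.lt s (by linarith) α.1 α.2
          rw [← sub_eq_zero.1 h0, norm_one] at h8
          exact lt_irrefl _ h8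
        rw [inv_mul_cancel₀ h7]
      · rw [mul_one]
    let ι : {α : Ei // Pq α ∧ ¬ α ∣ M} → {α : Ei // Pq α} := fun α => ⟨α.1, α.2.1⟩
    have hι : Function.Injective ι := by
      intro a b h
      exact Subtype.ext (congrArg (fun z : {α : Ei // Pq α} => z.1) h)
    have h7 : HasProd (f ∘ ι) (F s * ∏ α ∈ T, (1 - g s α)) := by
      rw [hι.hasProd_iff]
      · exact h6
      · intro α hα
        rw [hf]
        simp only
        rw [if_pos]
        by_contra hcon
        exact hα ⟨⟨α.1, α.2, hcon⟩, rfl⟩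
    refine h7.congr_fun fun α => ?_
    rw [hf]
    simp only [Function.comp_apply, ι]
    rw [if_neg α.2.2]

section inst

variable {J : Type} [Fintype J] {π : J → Ei} {e : J → ZMod 3} {i : ZMod 3}

theorem ep_gg (hpq : ∀ k, Pq (π k)) {F : ℂ → ℂ} (hF : IsHL π e F) (hF1 : F 1 ≠ 0) :
    EP (fun s => gg π e s) :=
  ⟨fun _ hs _ hα => gg_norm_lt π e hs hα, fun _ hα => gg_diff π e hα, F, hF.1, hF1,
    fun s hs => hasProd_pq (gg_one hpq e s) (gg_mul hpq e s) (hF.2 s hs)⟩

lemma xB_le (α : Ei) : ‖xB π e i α‖ ≤ 1 := by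
  unfold xB
  have h1 : ‖toC w‖ = 1 := by
    have h2 : toC w ^ 3 = 1 := by rw [← map_pow, w_cube, map_one]
    have h3 : ‖toC w‖ ^ 3 = 1 := by rw [← norm_pow, h2, norm_one]
    exact (pow_eq_one_iff_of_nonneg (norm_nonneg _) (by norm_num)).1 h3
  rw [norm_mul, norm_pow, h1, one_pow, mul_one]
  exact chD_le π e α

lemma gB_norm_lt {s : ℂ} (hs : 1 / 2 < s.re) {α : Ei} (hα : Pq α) : ‖gB π e i s α‖ < 1 := by
  have h2 : 2 ≤ nr α := by
    have h3 := nr_nonneg α
    have h4 : nr α ≠ 0 := fun h => hα.prime.ne_zero (nr_zero_iff.1 h)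
    have h5 : nr α ≠ 1 := fun h => hα.prime.not_isUnit (isUnit_iff.2 h)
    omega
  have h0 : (0 : ℝ) < ((nr α : ℤ) : ℝ) := by
    have : (0 : ℤ) < nr α := by omega
    exact_mod_cast this
  have h1 : (1 : ℝ) < ((nr α : ℤ) : ℝ) := by
    have : (1 : ℤ) < nr α := by omega
    exact_mod_cast this
  have hX : ‖((nr α : ℤ) : ℂ) ^ (-s)‖ = ((nr α : ℤ) : ℝ) ^ (-s.re) := by
    have h3 : ((nr α : ℤ) : ℂ) = (((nr α : ℤ) : ℝ) : ℂ) := by push_cast; rfl
    rw [h3, Complex.norm_cpow_eq_rpow_re_of_pos h0, Complex.neg_re]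
  unfold gB
  split_ifs
  · rw [norm_zero]; exact zero_lt_one
  rw [norm_mul, norm_mul, hX, toC_norm]
  calc ((nr α : ℤ) : ℝ) ^ (1 / 2 : ℝ) * ‖xB π e i α‖ * ((nr α : ℤ) : ℝ) ^ (-s.re)
      ≤ ((nr α : ℤ) : ℝ) ^ (1 / 2 : ℝ) * 1 * ((nr α : ℤ) : ℝ) ^ (-s.re) := by
        gcongr
        exact xB_le α
    _ = ((nr α : ℤ) : ℝ) ^ (1 / 2 - s.re) := by
        rw [mul_one, ← Real.rpow_add h0]
        rfl
    _ < 1 := Real.rpow_lt_one_of_one_lt_of_neg h1 (by linarith)

lemma gB_diff {α : Ei} (hα : α ≠ 0) : Differentiable ℂ (fun s => gB π e i s α) := by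
  have h0 : ((nr α : ℤ) : ℂ) ≠ 0 := by
    have h1 : nr α ≠ 0 := fun h => hα (nr_zero_iff.1 h)
    exact_mod_cast h1
  unfold gB
  split_ifs
  · exact differentiable_const 0
  intro s
  refine DifferentiableAt.const_mul ?_ _
  exact (differentiableAt_id.neg).const_cpow (Or.inl h0)

theorem ep_gB (hpq : ∀ k, Pq (π k)) {F : ℂ → ℂ} (hF : IsHLB π e i F) (hF1 : F 1 ≠ 0) :
    EP (fun s => gB π e i s) :=
  ⟨fun _ hs _ hα => gB_norm_lt hs hα, fun _ hα => gB_diff hα, F, hF.1, hF1,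
    fun s hs => hasProd_pq (gB_one hpq e i s) (gB_mul hpq e i s) (sumB hF hs)⟩

/-- one factor of the Hecke `L`-function of a twist -/
theorem gB_val (hD : Dt π e) {q b : Ei}
    (hDp : q * b = pB π e i ∨ q * b = -pB π e i) {α : Ei} (hα : Pq α) (h1 : ¬ α ∣ q)
    (h2 : ¬ α ∣ b) (s : ℂ) : gB π (fun k => -e k) (-i) s α =
      (toC (w ^ (-cs α q).val * α) * ((nr α : ℤ) : ℂ) ^ (-s)) * toC w ^ (-cs α b).val := by
  have hnd : ¬ α ∣ q * b := by
    intro h
    rcases hα.prime.dvd_or_dvd h with h | h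
    · exact h1 h
    · exact h2 h
  have hnd' : ¬ α ∣ pB π e i := by
    rcases hDp with h | h
    · rwa [← h]
    · intro h3
      apply hnd
      rw [h]
      exact (dvd_neg).2 h3
  have h3 := cs_pB Pool.Agent.Y350.CT.rec hD hα hnd'
  have h4 : cs α (pB π e i) = cs α (q * b) := by
    rcases hDp with h | h
    · rw [h]
    · rw [h, Pool.Agent.Y715.T.RecG.cs_neg hα.prime hα.norm hnd']
  have hndj : ¬ ∃ k, π k ∣ α := by
    rintro ⟨k, hk⟩
    apply hnd'
    have h5 := ((hD.pq k).prime.associated_of_dvd hα.prime hk).symm.dvd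
    exact Pool.Agent.N883.FF.Lfe.dvd_pB.2 (h5.trans (pi_dvd_pD hD k))
  have c2 : xB π (fun k => -e k) (-i) α = toC w ^ (-cs α (q * b)).val := by
    rw [← h4, h3]
    unfold xB chD
    rw [if_neg hndj, ← tw_add, neg_add, neg_mul, ← Finset.sum_neg_distrib, add_comm]
    congr 3
    exact Finset.sum_congr rfl fun k _ => neg_mul _ _
  unfold gB
  rw [if_neg (ep_ndvd hα.three), c2, cs_mul' hα h1 h2, neg_add,
    pow_add_val Pool.Agent.Run7.h741.CC.toCw3, map_mul, map_pow]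
  ring

end inst

end Pool.Agent.Run7.h741.CR
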