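import Pool.Agent.Run7.h741.CR.B1
import Pool.Agent.Y574.CTE.Sh1

/-!
# BSD over cyclic cubic fields ramified at three, part 2: the curve `y² + y = x³`
-/

set_option autoImplicit false
set_option linter.unusedSectionVars false

open NumberField IsDedekindDomain Filter Complex
open scoped Topology Classical

namespace Pool.Agent.Run7.h741.CR

open Pool.Agent.Y692.QS hiding chi
open Pool.Agent.Y715.T.Rec (cs nn)
open Pool.Agent.Y715.T.RecG (Pq cs_spec)
open Pool.Agent.Y696.CT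
open Pool.Agent.Y696.CTK
open Pool.Agent.Y696.CTE
open Pool.Agent.Y696.CTP
open Pool.Agent.Y696 (yw pw_threeN pw fd_of nK)
open Pool.Agent.R432.V (ip ip_inj gg_norm_lt gg_diff)
open Pool.Agent.Y703.CT (IsHL chD Dt pD Ker)

/-- the function for `D = 1` -/
noncomputable def gO (s : ℂ) : Ei → ℂ :=
  gg (J := Empty) (fun x => x.elim) (fun x => x.elim) s

lemma chD_empty (α : Ei) : chD (J := Empty) (fun x => x.elim) (fun x => x.elim) α = 1 := by
  unfold chD
  rw [if_neg (by rintro ⟨k, -⟩; exact k.elim)]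
  simp

lemma gO_val {α : Ei} (hα : Pq α) (s : ℂ) : gO s α = toC α * ((nr α : ℤ) : ℂ) ^ (-s) := by
  unfold gO gg
  rw [chD_empty, mul_one]

theorem ep_one : EP gO := by
  have hcyc : IsCyclotomicExtension {3} ℚ (CyclotomicField 3 ℚ) :=
    Pool.Agent.Y948.CTP.cyc_rat _ _ (CyclotomicField.isCyclotomicExtension 3 ℚ)
  obtain ⟨⟨j, -⟩, -⟩ := Pool.Agent.Y455.CTK.jex (CyclotomicField 3 ℚ)
  obtain ⟨G, hGd, hGs, hG1⟩ := half_one (K := CyclotomicField 3 ℚ) j
  refine ⟨fun _ hs _ hα => gg_norm_lt _ _ hs hα, fun _ hα => gg_diff _ _ hα, G, hGd, hG1,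
    fun s hs => ?_⟩
  have h1 := (Pool.Agent.Y696.CTK.eK j).hasProd_iff.2 (hGs s hs)
  have h2 := ip_inj.hasProd_iff (f := (fun v : HeightOneSpectrum (𝓞 (CyclotomicField 3 ℚ)) =>
    yw (io j) v s) ∘ (Pool.Agent.Y696.CTK.eK j)) (a := G s) ?_
  · refine (h2.2 h1).congr_fun fun α => ?_
    show (1 - gO s α.1)⁻¹ = yw (io j) (pK j (ip α)) s
    have hsp : (ip α).asIdeal = Ideal.span {α.1} := rfl
    have h3 : ¬ (3 : ℤ) ∣ nr (gn (ip α).asIdeal) := by
      intro h
      have h4 := (three_iff j (ip α)).2 h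
      have e : (3 : 𝓞 (CyclotomicField 3 ℚ)) = j 3 := (map_ofNat j 3).symm
      rw [e, mem_pK, hsp, Ideal.mem_span_singleton] at h4
      exact α.2.norm h4
    obtain ⟨k1, k2, k3, k4⟩ := prime_data j h3
    have hg : g0 (ip α) = α.1 := by
      have h5 := g0_span (ip α)
      rw [hsp] at h5
      exact Pool.Agent.R432.C.pq_dvd k1 α.2 ((Ideal.span_singleton_le_span_singleton).1 h5.le)
    have hpw : pw (io j) (pK j (ip α)) = toC (g0 (ip α)) := by
      unfold pw
      rw [fd_of k3, k2, pow_one]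
    have hq : ((nK (pK j (ip α)) : ℕ) : ℂ) = ((nr (g0 (ip α)) : ℤ) : ℂ) := by
      rw [← k4]
      push_cast
      rfl
    unfold yw
    rw [hpw, hq, gO_val α.2, hg]
  · intro P hP
    show yw (io j) (pK j P) s = 1
    have h3 : (3 : ℤ) ∣ nr (gn P.asIdeal) := by
      by_contra h4
      apply hP
      refine ⟨⟨_, pq_ns h4⟩, ?_⟩
      apply HeightOneSpectrum.ext
      exact (span_ns h4).symm
    unfold yw
    rw [pw_threeN (io j) ((three_iff j P).2 h3), zero_mul, sub_zero, inv_one]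

end Pool.Agent.Run7.h741.CR
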