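import Pool.Agent.Run7.h741.CR.B2

/-!
# BSD over cyclic cubic fields ramified at three, part 3: the Euler product
-/

set_option autoImplicit false
set_option linter.unusedSectionVars false

open NumberField IsDedekindDomain Filter Complex
open scoped Topology Classical

namespace Pool.Agent.Run7.h741.CR

open Pool.Agent.Y692.QS hiding chi
open Pool.Agent.Y715.T.Rec (cs nn)
open Pool.Agent.Y715.T.RecG (Pq cs_spec)
open Pool.Agent.Y696.CT (pq_star cs_star_int cs_inert inert int_ndvd im_star_ne gg chD_prime cs_mul'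
  cpow_two)
open Pool.Agent.R432.C (pow_add_val)
open Pool.Agent.R432.V
open Pool.Agent.Y405.CT (cs_starG)
open Pool.Agent.Y703.CT (IsHL chD Dt pD Ker)
open Pool.Agent.Y703.CX (pp)
open Pool.Agent.Y333.CX (pp_spec)
open Pool.Agent.Run7.h741.CC (toCw3 prod3 f1 f1_zero f1_one f1_cases cs_bar cs_bar' f1_star Cx
  places1 places2 pl1 pl2 tr_ex)

/-- the functions of the three twists `c`, `c n β` and `c n β̄` -/
structure TriG (c n : ℕ) (β : Ei) (g0 g1 g2 : ℂ → Ei → ℂ) : Prop where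
  c0 : c ≠ 0
  n0 : n ≠ 0
  mul : β * star β = ((n : ℕ) : Ei)
  e0 : EP g0
  e1 : EP g1
  e2 : EP g2
  v0 : ∀ α, Pq α → ¬ α ∣ ((c : ℕ) : Ei) → ∀ s, g0 s α =
    toC (w ^ (-cs α ((c : ℕ) : Ei)).val * α) * ((nr α : ℤ) : ℂ) ^ (-s)
  v1 : ∀ α, Pq α → ¬ α ∣ ((c : ℕ) : Ei) → ¬ α ∣ ((n : ℕ) : Ei) → ∀ s, g1 s α =
    (toC (w ^ (-cs α ((c : ℕ) : Ei)).val * α) * ((nr α : ℤ) : ℂ) ^ (-s)) *
      toC w ^ (-cs α (((n : ℕ) : Ei) * β)).val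
  v2 : ∀ α, Pq α → ¬ α ∣ ((c : ℕ) : Ei) → ¬ α ∣ ((n : ℕ) : Ei) → ∀ s, g2 s α =
    (toC (w ^ (-cs α ((c : ℕ) : Ei)).val * α) * ((nr α : ℤ) : ℂ) ^ (-s)) *
      toC w ^ (-cs α (star (((n : ℕ) : Ei) * β))).val

section tw

variable {q n : ℕ} {β : Ei} {g0 g1 g2 : ℂ → Ei → ℂ}

lemma TriG.dd (T : TriG q n β g0 g1 g2) :
    (((n : ℕ) : Ei) * β) * star (((n : ℕ) : Ei) * β) = ((n : ℕ) : Ei) ^ 3 := by
  rw [star_mul', star_natCast]
  linear_combination ((n : ℕ) : Ei) ^ 2 * T.mul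

/-- the product over the twists at one prime of `K` -/
theorem tw_prod (T : TriG q n β g0 g1 g2) {α : Ei} (hα : Pq α)
    (h1 : ¬ α ∣ ((q : ℕ) : Ei)) (h2 : ¬ α ∣ ((n : ℕ) : Ei)) (s : ℂ) {f : ℕ}
    (hf : f = f1 (((n : ℕ) : Ei) * β) α) :
    (1 - g0 s α) * (1 - g1 s α) * (1 - g2 s α) =
      (1 - (toC (w ^ (-cs α ((q : ℕ) : Ei)).val * α) * ((nr α : ℤ) : ℂ) ^ (-s)) ^ f) ^
        (3 / f) := by
  obtain ⟨k1, k2, k3⟩ := cs_bar T.dd hα h2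
  rw [T.v0 α hα h1 s, T.v1 α hα h1 h2 s, T.v2 α hα h1 h2 s, k3]
  refine prod3 _ _ (fun h => ?_) (fun h => ?_)
  · rw [hf]
    exact f1_zero h
  · rw [hf]
    exact f1_one h

/-- the product over the twists at a prime number, split case -/
theorem tw1 (T : TriG q n β g0 g1 g2) {p : ℕ} (hp : p.Prime) (hm : p % 3 = 1)
    (h1 : ¬ p ∣ q) (h2 : ¬ p ∣ n) (s : ℂ) {f : ℕ} (hf : f = f1 (((n : ℕ) : Ei) * β) (pp p)) :
    Gp (g0 s) p * Gp (g1 s) p * Gp (g2 s) p =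
      (((1 - (toC (w ^ (-cs (pp p) ((q : ℕ) : Ei)).val * pp p) * ((p : ℕ) : ℂ) ^ (-s)) ^ f) *
        (1 - ((starRingEnd ℂ) (toC (w ^ (-cs (pp p) ((q : ℕ) : Ei)).val * pp p)) *
          ((p : ℕ) : ℂ) ^ (-s)) ^ f))⁻¹) ^ (3 / f) := by
  obtain ⟨hα, hn⟩ := pp_spec hp hm
  have hα' := pq_star hα
  have hn' : nr (star (pp p)) = p := by rw [nr_star, hn]
  have hf' : f = f1 (((n : ℕ) : Ei) * β) (star (pp p)) := by
    rw [hf]
    exact (f1_star T.dd hα (ndvd_nat hp hn h2)).symm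
  have k1 := tw_prod T hα (ndvd_nat hp hn h1) (ndvd_nat hp hn h2) s hf
  have k2 := tw_prod T hα' (ndvd_nat hp hn' h1) (ndvd_nat hp hn' h2) s hf'
  have h8 : toC (w ^ (-cs (star (pp p)) ((q : ℕ) : Ei)).val * star (pp p)) =
      (starRingEnd ℂ) (toC (w ^ (-cs (pp p) ((q : ℕ) : Ei)).val * pp p)) := by
    rw [← Pool.Agent.Y696.CTK.toC_star', star_mul', cs_star_nat hα (ndvd_nat hp hn h1), neg_neg]
    have hst : star (w ^ (-cs (pp p) ((q : ℕ) : Ei)).val : Ei) =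
        w ^ (cs (pp p) ((q : ℕ) : Ei)).val := by
      generalize cs (pp p) ((q : ℕ) : Ei) = c
      revert c
      decide
    rw [hst]
  rw [hn, Int.cast_natCast] at k1
  rw [hn', Int.cast_natCast, h8] at k2
  have h9 : ∀ g : Ei → ℂ, Gp g p = (1 - g (pp p))⁻¹ * (1 - g (star (pp p)))⁻¹ := by
    intro g
    unfold Gp
    rw [if_pos hm]
  rw [h9, h9, h9, inv_pow, mul_pow, ← k1, ← k2]
  simp only [mul_inv]
  ring

/-- the product over the twists at a prime number, inert case -/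
theorem tw2 (T : TriG q n β g0 g1 g2) {p : ℕ} (hp : p.Prime) (hm : p % 3 = 2)
    (h1 : ¬ p ∣ q) (h2 : ¬ p ∣ n) (s : ℂ) {f : ℕ}
    (hf : f = f1 (((n : ℕ) : Ei) * β) (-((p : ℕ) : Ei))) :
    Gp (g0 s) p * Gp (g1 s) p * Gp (g2 s) p =
      ((1 + (p : ℂ) ^ f * ((((p : ℕ) : ℂ) ^ (-s)) ^ 2) ^ f)⁻¹) ^ (3 / f) := by
  have hfact := Fact.mk hp
  have hα : Pq (-((p : ℕ) : Ei)) := inert hp hm
  have hnr : nr (-((p : ℕ) : Ei)) = (p : ℤ) ^ 2 := by rw [nr_neg, nr_nat]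
  have hnd : ∀ m : ℕ, ¬ p ∣ m → ¬ -((p : ℕ) : Ei) ∣ ((m : ℕ) : Ei) := by
    intro m hm h
    rw [neg_dvd] at h
    exact hm (nat_dvd_nat h)
  have hcs : ∀ m : ℕ, ¬ p ∣ m → cs (-((p : ℕ) : Ei)) ((m : ℕ) : Ei) = 0 := by
    intro m hm'
    have h5 := cs_inert hm hα (n := (m : ℤ)) (fun h => hm' (by exact_mod_cast h))
    rwa [Int.cast_natCast] at h5
  have k1 := tw_prod T hα (hnd q h1) (hnd n h2) s hf
  have hm' : ¬ p % 3 = 1 := by omega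
  have h9 : ∀ g : Ei → ℂ, Gp g p = (1 - g (-((p : ℕ) : Ei)))⁻¹ := by
    intro g
    unfold Gp
    rw [if_neg hm']
  have h10 : ((((p : ℤ) ^ 2 : ℤ) : ℂ)) ^ (-s) = (((p : ℕ) : ℂ) ^ (-s)) ^ 2 := by
    push_cast
    exact npow p 2 (-s)
  rw [h9, h9, h9, ← mul_inv, ← mul_inv, k1, hnr, h10, hcs q h1, neg_zero,
    ZMod.val_zero, pow_zero, one_mul, map_neg, map_natCast, inv_pow]
  congr 2
  have hodd : (-(p : ℂ) * (((p : ℕ) : ℂ) ^ (-s)) ^ 2) ^ f =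
      -((p : ℂ) ^ f * ((((p : ℕ) : ℂ) ^ (-s)) ^ 2) ^ f) := by
    have ho : Odd f := by
      rcases f1_cases (((n : ℕ) : Ei) * β) (-((p : ℕ) : Ei)) with h | h <;> rw [← hf] at h <;>
        rw [h] <;> decide
    rw [neg_mul, ho.neg_pow, mul_pow]
  rw [hodd]
  ring

end tw

variable {K L F : Type} [Field K] [NumberField K] [Field L] [NumberField L] [Field F]
  [NumberField F] [Algebra K F] [Algebra L F] {j : Ei ≃+* 𝓞 K}

/-- **The Euler product of `E_q` over `L`.** -/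
theorem eulG {q n : ℕ} {β : Ei} {g0 g1 g2 : ℂ → Ei → ℂ} (T : TriG q n β g0 g1 g2) {x : 𝓞 F}
    (C : Cx L j (((n : ℕ) : Ei) * β) x) :
    ∃ G : ℂ → ℂ, Differentiable ℂ G ∧ G 1 ≠ 0 ∧ ∀ s : ℂ, 3 / 2 < s.re →
      HasProd (fun u : {u : HeightOneSpectrum (𝓞 L) |
        ((3 * q * n : ℕ) : 𝓞 L) ∉ u.asIdeal} => ef ((q : ℕ) : 𝓞 L) s u.1) (G s) := by
  obtain ⟨M, hM⟩ : ∃ M : ℕ, M = 3 * q * n := ⟨_, rfl⟩
  rw [← hM]
  have hM0 : M ≠ 0 := by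
    rw [hM]
    exact mul_ne_zero (mul_ne_zero (by norm_num) T.c0) T.n0
  have hM0' : ((M : ℕ) : Ei) ≠ 0 := by
    intro h
    have h1 := nat_dvd_nat (a := 0) (b := M) (by rw [h]; exact dvd_zero _)
    exact hM0 (Nat.eq_zero_of_zero_dvd h1)
  have hMp : ∀ p : ℕ, ¬ p ∣ M → p ≠ 3 ∧ ¬ p ∣ q ∧ ¬ p ∣ n := by
    intro p hp
    rw [hM] at hp
    refine ⟨fun h => hp ?_, fun h => hp ((h.mul_left 3).mul_right _), fun h => hp (h.mul_left _)⟩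
    rw [h, mul_assoc]
    exact dvd_mul_right _ _
  -- the functions of the twists
  obtain ⟨G0, hG01, hG02, hG03⟩ := T.e0.gm hM0'
  obtain ⟨G1, hG11, hG12, hG13⟩ := T.e1.gm hM0'
  obtain ⟨G2, hG21, hG22, hG23⟩ := T.e2.gm hM0'
  refine ⟨fun s => G0 s * G1 s * G2 s, (hG01.mul hG11).mul hG21,
    mul_ne_zero (mul_ne_zero hG02 hG12) hG22, fun s hs => ?_⟩
  have h3M : 3 ∣ M := ⟨q * n, by rw [hM, mul_assoc]⟩
  have r0 : HasProd (fun p : {p : ℕ // p.Prime ∧ ¬ p ∣ M} => Gp (g0 s) p.1) (G0 s) :=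
    regroup h3M (hG03 s hs)
  have r1 : HasProd (fun p : {p : ℕ // p.Prime ∧ ¬ p ∣ M} => Gp (g1 s) p.1) (G1 s) :=
    regroup h3M (hG13 s hs)
  have r2 : HasProd (fun p : {p : ℕ // p.Prime ∧ ¬ p ∣ M} => Gp (g2 s) p.1) (G2 s) :=
    regroup h3M (hG23 s hs)
  set U : Set (HeightOneSpectrum (𝓞 L)) := {u | ((M : ℕ) : 𝓞 L) ∉ u.asIdeal} with hU
  have hex : ∀ u : U, ∃ p : {p : ℕ // p.Prime ∧ ¬ p ∣ M}, ((p.1 : ℕ) : 𝓞 L) ∈ u.1.asIdeal := by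
    intro u
    obtain ⟨p, hp, hu⟩ := exists_p_below u.1
    refine ⟨⟨p, hp, fun h => u.2 ?_⟩, hu⟩
    obtain ⟨c, rfl⟩ := h
    rw [Nat.cast_mul]
    exact u.1.asIdeal.mul_mem_right _ hu
  choose b hb using hex
  have hbu : ∀ (u : U) (p : {p : ℕ // p.Prime ∧ ¬ p ∣ M}), ((p.1 : ℕ) : 𝓞 L) ∈ u.1.asIdeal →
      b u = p := by
    intro u p hp
    exact Subtype.ext (p_below_unique (b u).2.1 p.2.1 (hb u) hp)
  have hnM : ∀ (p : {p : ℕ // p.Prime ∧ ¬ p ∣ M}) (u : HeightOneSpectrum (𝓞 L)),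
      ((p.1 : ℕ) : 𝓞 L) ∈ u.asIdeal → ((M : ℕ) : 𝓞 L) ∉ u.asIdeal := by
    intro p u hu h
    have h5 : IsCoprime (p.1 : ℤ) (M : ℤ) := by
      rw [Int.isCoprime_iff_gcd_eq_one]
      have h6 : Nat.Coprime p.1 M := (Nat.Prime.coprime_iff_not_dvd p.2.1).2 p.2.2
      exact_mod_cast h6
    obtain ⟨b, c, hbc⟩ := h5
    apply u.isPrime.ne_top
    rw [Ideal.eq_top_iff_one]
    have h7 : ((b * p.1 + c * M : ℤ) : 𝓞 L) = 1 := by rw [hbc]; norm_num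
    rw [← h7]
    push_cast
    exact u.asIdeal.add_mem (u.asIdeal.mul_mem_left _ hu) (u.asIdeal.mul_mem_left _ h)
  refine eul_abs (fun u hu => ?_) hs b (h := fun p =>
    Gp (g0 s) p.1 * Gp (g1 s) p.1 * Gp (g2 s) p.1) ?_ ((r0.mul r1).mul r2)
  · obtain ⟨h1, h2, h3⟩ := hMp _ (b ⟨u, hu⟩).2.2
    exact tr_ex T.dd C (b ⟨u, hu⟩).2.1 h1 h3 h2 (hb ⟨u, hu⟩)
  · intro p
    obtain ⟨h1, h2, h3⟩ := hMp p.1 p.2.2
    let E : {u : U // b u = p} ≃ {u : HeightOneSpectrum (𝓞 L) // ((p.1 : ℕ) : 𝓞 L) ∈ u.asIdeal} :=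
      { toFun := fun u => ⟨u.1.1, by have h1 := hb u.1; rwa [u.2] at h1⟩
        invFun := fun u => ⟨⟨u.1, hnM p u.1 u.2⟩, hbu _ _ u.2⟩
        left_inv := fun u => rfl
        right_inv := fun u => rfl }
    have hm : p.1 % 3 = 1 ∨ p.1 % 3 = 2 := by
      have : p.1 % 3 ≠ 0 := fun h => h1
        ((Nat.prime_dvd_prime_iff_eq Nat.prime_three p.2.1).1 (Nat.dvd_of_mod_eq_zero h)).symm
      omega
    rcases hm with hm | hm
    · have h4 := pl1 T.dd C p.2.1 hm h3 h2 s rfl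
      have h5 := E.hasProd_iff.2 h4
      show HasProd _ (Gp (g0 s) p.1 * Gp (g1 s) p.1 * Gp (g2 s) p.1)
      rw [tw1 T p.2.1 hm h2 h3 s rfl]
      exact h5
    · have h4 := pl2 (D := q) T.dd C p.2.1 hm h3 s rfl
      have h5 := E.hasProd_iff.2 h4
      show HasProd _ (Gp (g0 s) p.1 * Gp (g1 s) p.1 * Gp (g2 s) p.1)
      rw [tw2 T p.2.1 hm h2 h3 s rfl]
      exact h5

end Pool.Agent.Run7.h741.CR
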