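import Pool.Agent.Run7.h741.CC.A5

/-!
# BSD over cyclic cubic fields ramified at three, part 4: the field `ℚ(θ)`, `θ³ = 3nθ + nu`,
`4n = u² + 3v²`
-/

set_option autoImplicit false
set_option linter.unusedSectionVars false

open Polynomial

namespace Pool.Agent.Run7.h741.CR

open Pool.Agent.Y692.QS hiding chi
open Pool.Agent.Run7.h741.CC (gen_th sub_ne)

/-- `β = (u + v √-3) / 2`, of norm `n = (u² + 3 v²) / 4` -/
def bt (u v : ℤ) : Ei := ⟨(u + v) / 2, v⟩

section arith

variable {u v : ℤ} {n : ℕ}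

lemma par (hn : 4 * (n : ℤ) = u ^ 2 + 3 * v ^ 2) : (u + v) / 2 * 2 = u + v := by
  have h1 : (u + v) % 2 = 0 := by
    rcases Int.emod_two_eq_zero_or_one u with h | h <;>
    rcases Int.emod_two_eq_zero_or_one v with h' | h'
    · omega
    · exfalso
      have h2 : (u ^ 2 + 3 * v ^ 2) % 2 = 1 := by
        rw [pow_two, pow_two]
        simp [Int.add_emod, Int.mul_emod, h, h']
      omega
    · exfalso
      have h2 : (u ^ 2 + 3 * v ^ 2) % 2 = 1 := by
        rw [pow_two, pow_two]
        simp [Int.add_emod, Int.mul_emod, h, h']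
      omega
    · omega
  omega

lemma nr_bt (hn : 4 * (n : ℤ) = u ^ 2 + 3 * v ^ 2) : nr (bt u v) = n := by
  have h1 := par hn
  unfold nr bt
  simp only
  generalize (u + v) / 2 = a at h1 ⊢
  have h2 : u = a * 2 - v := by linarith
  subst h2
  linarith

lemma bt_mul (hn : 4 * (n : ℤ) = u ^ 2 + 3 * v ^ 2) :
    bt u v * star (bt u v) = ((n : ℕ) : Ei) := by
  rw [mul_star, nr_bt hn, Int.cast_natCast]

lemma bt_add (hn : 4 * (n : ℤ) = u ^ 2 + 3 * v ^ 2) :
    bt u v + star (bt u v) = ((u : ℤ) : Ei) := by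
  have h1 := par hn
  ext
  · rw [QuadraticAlgebra.re_add, star_re, QuadraticAlgebra.re_intCast]
    show (u + v) / 2 + ((u + v) / 2 - v) = u
    linarith
  · rw [QuadraticAlgebra.im_add, star_im, QuadraticAlgebra.im_intCast]
    show v + -v = 0
    ring

lemma bt_sub (hn : 4 * (n : ℤ) = u ^ 2 + 3 * v ^ 2) :
    bt u v - star (bt u v) = (v : Ei) * (1 + 2 * w) := by
  have h1 := par hn
  have h2 : bt u v = (((u + v) / 2 : ℤ) : Ei) + ((v : ℤ) : Ei) * w := by
    unfold bt
    rw [mk_eq]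
  have h3 : star (bt u v) = (((u + v) / 2 : ℤ) : Ei) + ((v : ℤ) : Ei) * w ^ 2 := by
    rw [h2, star_add, star_mul', star_w, star_intCast, star_intCast]
  rw [h3, h2]
  have h4 : (w : Ei) ^ 2 = -1 - w := by decide
  rw [h4]
  push_cast
  ring

/-- no prime divides `n` and `u` -/
lemma cop (hn : 4 * (n : ℤ) = u ^ 2 + 3 * v ^ 2) (hsq : Squarefree n) (h3n : ¬ 3 ∣ n) {p : ℕ} (hp : p.Prime)
    (h1 : p ∣ n) (h2 : (p : ℤ) ∣ u) : False := by
  have hp3 : p ≠ 3 := by
    rintro rfl
    exact h3n h1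
  have hpi : Prime (p : ℤ) := Nat.prime_iff_prime_int.1 hp
  have h4 : (p : ℤ) ∣ 3 * v ^ 2 := by
    have h5 : (p : ℤ) ∣ 4 * (n : ℤ) := Dvd.dvd.mul_left (by exact_mod_cast h1) _
    rw [hn] at h5
    exact (dvd_add_right (dvd_pow h2 two_ne_zero)).1 h5
  have h5 : (p : ℤ) ∣ v := by
    rcases hpi.dvd_or_dvd h4 with h | h
    · exfalso
      have h6 : p ∣ 3 := by exact_mod_cast h
      exact hp3 ((Nat.prime_dvd_prime_iff_eq hp Nat.prime_three).1 h6)
    · exact hpi.dvd_of_dvd_pow h
  by_cases hp2 : p = 2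
  · subst hp2
    obtain ⟨a, rfl⟩ := h2
    obtain ⟨b, rfl⟩ := h5
    obtain ⟨c, rfl⟩ := h1
    push_cast at hn
    have hc : (2 : ℤ) * c = a ^ 2 + 3 * b ^ 2 := by linarith
    have h6 : (a + b) % 2 = 0 := by
      rcases Int.emod_two_eq_zero_or_one a with h | h <;>
      rcases Int.emod_two_eq_zero_or_one b with h' | h'
      · omega
      · exfalso
        have h2 : (a ^ 2 + 3 * b ^ 2) % 2 = 1 := by
          rw [pow_two, pow_two]
          simp [Int.add_emod, Int.mul_emod, h, h']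
        omega
      · exfalso
        have h2 : (a ^ 2 + 3 * b ^ 2) % 2 = 1 := by
          rw [pow_two, pow_two]
          simp [Int.add_emod, Int.mul_emod, h, h']
        omega
      · omega
    obtain ⟨d, hd⟩ : ∃ d, a = 2 * d - b := ⟨(a + b) / 2, by omega⟩
    subst hd
    have h7 : (c : ℤ) = 2 * (d ^ 2 - d * b + b ^ 2) := by linarith
    have h8 : 2 ∣ c := by
      have : ((2 : ℕ) : ℤ) ∣ (c : ℤ) := ⟨_, by exact_mod_cast h7⟩
      exact_mod_cast this
    have h9 := hsq 2 (Nat.mul_dvd_mul_left 2 h8)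
    rw [Nat.isUnit_iff] at h9
    omega
  · obtain ⟨a, rfl⟩ := h2
    obtain ⟨b, rfl⟩ := h5
    have h6 : ((p : ℤ) * p) ∣ 4 * (n : ℤ) := ⟨a ^ 2 + 3 * b ^ 2, by rw [hn]; ring⟩
    have h7 : p * p ∣ 4 * n := by exact_mod_cast h6
    have h8 : Nat.Coprime (p * p) 4 := by
      have h9 : Nat.Coprime p 2 := (Nat.coprime_primes hp Nat.prime_two).2 hp2
      have : Nat.Coprime (p * p) (2 * 2) := Nat.Coprime.mul_left
        (Nat.Coprime.mul_right h9 h9) (Nat.Coprime.mul_right h9 h9)
      exact this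
    have h10 := hsq p (h8.dvd_of_dvd_mul_left h7)
    rw [Nat.isUnit_iff] at h10
    exact hp.one_lt.ne' h10

end arith

section rat

variable {u v : ℤ} {n : ℕ}

/-- no rational root -/
lemma no_rat (hn : 4 * (n : ℤ) = u ^ 2 + 3 * v ^ 2) (hsq : Squarefree n) (h3n : ¬ 3 ∣ n)
    (hv : v ≠ 0) (t : ℚ) : t ^ 3 ≠ 3 * (n : ℚ) * t + (n : ℚ) * (u : ℚ) := by
  by_cases hn1 : n = 1
  · subst hn1
    have hv2 : 1 ≤ v ^ 2 := by
      have h1 : 0 < v ^ 2 := by positivity
      omega
    have hu1 : u ^ 2 ≤ 1 := by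
      push_cast at hn
      linarith
    have hu2 : u = 1 ∨ u = -1 := by
      have h1 : u ≤ 1 := by nlinarith
      have h2 : -1 ≤ u := by nlinarith
      have h3 : u ≠ 0 := by
        rintro rfl
        push_cast at hn
        omega
      omega
    intro h
    have hint : IsIntegral ℤ t := by
      refine ⟨X ^ 3 - (C 3 * X + C u), ?_, ?_⟩
      · apply Monic.sub_of_left (monic_X_pow 3)
        refine lt_of_le_of_lt (degree_linear_le) ?_
        rw [degree_X_pow]
        norm_num
      · rw [eval₂_sub, eval₂_add, eval₂_mul, eval₂_X_pow, eval₂_C, eval₂_C, eval₂_X,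
          algebraMap_int_eq, eq_intCast, eq_intCast]
        push_cast at h ⊢
        rw [h]
        ring
    obtain ⟨m, hm⟩ := IsIntegrallyClosed.isIntegral_iff.1 hint
    have h1 : m ^ 3 = 3 * m + u := by
      rw [← hm] at h
      simp only [algebraMap_int_eq, eq_intCast] at h
      push_cast at h
      rw [mul_one, one_mul] at h
      exact_mod_cast h
    have h2 : m * (m ^ 2 - 3) = u := by linear_combination h1
    have h3 : m ∣ 1 := by
      rcases hu2 with rfl | rfl
      · exact ⟨_, h2.symm⟩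
      · exact ⟨-(m ^ 2 - 3), by linear_combination h2⟩
    rcases Int.isUnit_iff.1 (isUnit_of_dvd_one h3) with rfl | rfl
    · rcases hu2 with rfl | rfl <;> norm_num at h2
    · rcases hu2 with rfl | rfl <;> norm_num at h2
  · exact Pool.Agent.Run7.h741.CC.no_rat (fun p hp h1 h2 => cop hn hsq h3n hp h1 h2) hsq hn1 t

end rat

section field

variable {u v : ℤ} {n : ℕ} {L : Type} [Field L] [NumberField L] {th : L}

variable (hn : 4 * (n : ℤ) = u ^ 2 + 3 * v ^ 2)
  (hth : th ^ 3 = 3 * (n : L) * th + (n : L) * (u : L))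

include hn hth in
lemma key_th : (th ^ 2 - 4 * (n : L)) * (th ^ 2 - (n : L)) ^ 2 = -3 * (n : L) ^ 2 * (v : L) ^ 2 := by
  have hn' : 4 * (n : L) = (u : L) ^ 2 + 3 * (v : L) ^ 2 := by exact_mod_cast congrArg (Int.cast : ℤ → L) hn
  linear_combination (th ^ 3 - 3 * (n : L) * th + (n : L) * (u : L)) * hth - (n : L) ^ 2 * hn'

include hn hth in
/-- the field is Galois over `ℚ` -/
theorem gal_th (hnr : ∀ t : ℚ, algebraMap ℚ L t ≠ th) (hn0 : n ≠ 0)
    (hd : Module.finrank ℚ L = 3) : IsGalois ℚ L := by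
  have hne := sub_ne hth hnr hn0
  have hkey := key_th hn hth
  obtain ⟨R, hR⟩ : ∃ R : L, R = 3 * (n : L) * (v : L) / (th ^ 2 - (n : L)) := ⟨_, rfl⟩
  have hR2 : R ^ 2 = 12 * (n : L) - 3 * th ^ 2 := by
    rw [hR, div_pow, div_eq_iff (pow_ne_zero 2 hne)]
    linear_combination 3 * hkey
  have h2 : (2 : L) ≠ 0 := two_ne_zero
  set p : ℚ[X] := X ^ 3 - (C (3 * (n : ℚ)) * X + C ((n : ℚ) * (u : ℚ))) with hp
  have hmon : p.Monic := by
    rw [hp]
    apply Monic.sub_of_left (monic_X_pow 3)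
    refine lt_of_le_of_lt (degree_linear_le) ?_
    rw [degree_X_pow]
    norm_num
  have hmap : p.map (algebraMap ℚ L) =
      (X - C th) * ((X - C ((-th - R) / 2)) * (X - C ((-th + R) / 2))) := by
    have e1 : C ((-th - R) / 2) + C ((-th + R) / 2) = C (-th) := by
      rw [← C_add]
      congr 1
      field_simp
      ring
    have e2 : C ((-th - R) / 2) * C ((-th + R) / 2) = C (th ^ 2 - 3 * (n : L)) := by
      rw [← C_mul]
      congr 1
      field_simp
      linear_combination -hR2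
    have e3 : p.map (algebraMap ℚ L) = X ^ 3 - (C (3 * (n : L)) * X + C ((n : L) * (u : L))) := by
      rw [hp]
      simp
    have e4 : (X - C ((-th - R) / 2)) * (X - C ((-th + R) / 2)) =
        X ^ 2 + C th * X + C (th ^ 2 - 3 * (n : L)) := by
      rw [← e2]
      have e5 : C (-th) = -C th := C_neg
      rw [e5] at e1
      linear_combination (-X : L[X]) * e1
    have e6 : C ((n : L) * (u : L)) = C th ^ 3 - C (3 * (n : L)) * C th := by
      rw [← C_pow, ← C_mul, ← C_sub]
      congr 1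
      linear_combination -hth
    have e7 : (C (th ^ 2 - 3 * (n : L)) : L[X]) = C th ^ 2 - C (3 * (n : L)) := by
      rw [C_sub, C_pow]
    rw [e3, e4, e6, e7]
    ring
  have hsplit : (p.map (algebraMap ℚ L)).Splits := by
    rw [hmap]
    exact (Splits.X_sub_C _).mul ((Splits.X_sub_C _).mul (Splits.X_sub_C _))
  have hspl : IsSplittingField ℚ L p := by
    rw [isSplittingField_iff_intermediateField]
    refine ⟨hsplit, ?_⟩
    have h1 := gen_th hnr hd (IntermediateField.adjoin ℚ (p.rootSet L)).toSubfield (by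
      apply IntermediateField.subset_adjoin ℚ (p.rootSet L)
      rw [mem_rootSet]
      refine ⟨hmon.ne_zero, ?_⟩
      have h3 : aeval th p = (p.map (algebraMap ℚ L)).eval th := by
        rw [eval_map_algebraMap]
      rw [h3, hmap]
      simp)
    rw [eq_top_iff]
    intro y _
    have h2 : y ∈ (IntermediateField.adjoin ℚ (p.rootSet L)).toSubfield := by rw [h1]; trivial
    exact h2
  have hnor : Normal ℚ L := Normal.of_isSplittingField p
  exact ⟨⟩

end field

end Pool.Agent.Run7.h741.CR
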