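import Pool.Agent.Run7.h741.CR.B3
import Pool.Agent.Run7.h741.CR.B4

/-!
# BSD over cyclic cubic fields ramified at three, part 5: the curve `y² + c y = x³` over
`L = ℚ(θ)`, `θ³ = 3nθ + nu`, `4n = u² + 3v²`
-/

set_option autoImplicit false
set_option linter.unusedSectionVars false

open NumberField IsDedekindDomain Polynomial

namespace Pool.Agent.Run7.h741.CR

open Pool.Agent.Y692.QS hiding chi
open Pool.Agent.Y715.T.RecG (Pq)
open Pool.Agent.R432.C (ED pts cubic gal3 om_K cube_roots)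
open Pool.Agent.R432.Q (pts_sub shpD cyc_le)
open Pool.Agent.R432.V
open Pool.Agent.Y703.CT (Dt pD Ker)
open Pool.Agent.TH841.NF.D (Sha)
open Pool.Agent.Run7.h741.CC (gen_th sub_ne Cx)

/-- the points and the `3`-parts for the three twists `c`, `c n β`, `c (n β)²` over `ℚ(ω)` -/
def PtsG (c n : ℕ) (β : Ei) : Prop :=
  ∀ (K : Type) [Field K] [NumberField K] [IsCyclotomicExtension {3} ℚ K] (j : Ei ≃+* 𝓞 K)
    (t : ℕ), t < 3 →
    Finite (ED ((j (((c : ℕ) : Ei) * (((n : ℕ) : Ei) * β) ^ t) : 𝓞 K) : K)).toAffine.Point ∧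
    ∀ (m : ℕ) (y : Sha (ED ((j (((c : ℕ) : Ei) * (((n : ℕ) : Ei) * β) ^ t) : 𝓞 K) : K))),
      3 ^ m • y = 0 → y = 0

/-- the points and the Tate-Shafarevich group over `F = K(∛(nβ))` -/
theorem towerG {K : Type} [Field K] [NumberField K] [IsCyclotomicExtension {3} ℚ K]
    (j : Ei ≃+* 𝓞 K) {c n : ℕ} {β : Ei} (c0 : c ≠ 0) (n0 : n ≠ 0)
    (mul : β * star β = ((n : ℕ) : Ei)) (P : PtsG c n β)
    {F : Type} [Field F] [NumberField F] [Algebra K F] (x : F)
    (hx : x ^ 3 = algebraMap K F ((j (((n : ℕ) : Ei) * β) : 𝓞 K) : K))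
    (hgen : ∀ M : Subfield F, (∀ k : K, algebraMap K F k ∈ M) → x ∈ M → M = ⊤) :
    Finite (ED ((c : ℕ) : F)).toAffine.Point ∧
    ∀ (k : ℕ) (y : Sha (ED ((c : ℕ) : F))), 3 ^ k • y = 0 → 3 • y = 0 := by
  classical
  have hω := om_K j
  obtain ⟨hfd, hgal⟩ := gal3 (F := F) hω (I := Unit)
    (fun _ => ((j (((n : ℕ) : Ei) * β) : 𝓞 K) : K)) (fun _ => x) (fun _ => hx)
    (fun M h1 h2 => hgen M h1 (h2 ()))
  have hne : ∀ z : Ei, z ≠ 0 → ((j z : 𝓞 K) : K) ≠ 0 := by
    intro z hz h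
    have h1 : (j z : 𝓞 K) = 0 := by exact_mod_cast h
    exact hz ((map_eq_zero_iff j j.injective).1 h1)
  have hn0 : ((n : ℕ) : Ei) ≠ 0 := by
    intro h
    have h1 := nat_dvd_nat (a := 0) (b := n) (by rw [h]; exact dvd_zero _)
    exact n0 (Nat.eq_zero_of_zero_dvd h1)
  have hb0 : β ≠ 0 := by
    rintro rfl
    rw [zero_mul] at mul
    exact hn0 mul.symm
  have hd0 : ((j (((n : ℕ) : Ei) * β) : 𝓞 K) : K) ≠ 0 := hne _ (mul_ne_zero hn0 hb0)
  have hq0 : ((c : ℕ) : K) ≠ 0 := Nat.cast_ne_zero.2 c0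
  have eD : algebraMap K F ((c : ℕ) : K) = ((c : ℕ) : F) := map_natCast _ _
  have htw : ∀ t : Unit → ZMod 3,
      ((j (((c : ℕ) : Ei) * (((n : ℕ) : Ei) * β) ^ (t ()).val) : 𝓞 K) : K) =
      ((c : ℕ) : K) * ∏ i : Unit, ((j (((n : ℕ) : Ei) * β) : 𝓞 K) : K) ^ (t i).val := by
    intro t
    rw [Fintype.prod_unique, map_mul, map_pow, map_natCast]
    push_cast
    rfl
  have hbase : ∀ t : Unit → ZMod 3,
      Finite (ED (((c : ℕ) : K) *
        ∏ i : Unit, ((j (((n : ℕ) : Ei) * β) : 𝓞 K) : K) ^ (t i).val)).toAffine.Point ∧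
      ∀ (m : ℕ) (y : Sha (ED (((c : ℕ) : K) *
        ∏ i : Unit, ((j (((n : ℕ) : Ei) * β) : 𝓞 K) : K) ^ (t i).val))),
        3 ^ m • y = 0 → y = 0 := by
    intro t
    rw [← htw]
    exact P K j _ (ZMod.val_lt _)
  refine ⟨?_, ?_⟩
  · rw [← eD]
    exact pts hω (fun _ : Unit => ((j (((n : ℕ) : Ei) * β) : 𝓞 K) : K)) (fun _ => x)
      (fun _ => hd0) (fun _ => hx) (fun M h1 h2 => hgen M h1 (h2 ())) hq0 fun t => (hbase t).1
  · rw [← eD]
    intro k y hy
    have h1 := cubic hω (fun _ : Unit => ((j (((n : ℕ) : Ei) * β) : 𝓞 K) : K)) (fun _ => x)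
      (fun _ => hd0) (fun _ => hx) (fun M h1 h2 => hgen M h1 (h2 ())) hq0
      (fun t => (hbase t).2) k y hy
    rw [Fintype.card_unique, pow_one] at h1
    exact h1

/-- **The general field theorem.** -/
theorem fieldG {c : ℕ} {u v : ℤ} {n : ℕ} (hn : 4 * (n : ℤ) = u ^ 2 + 3 * v ^ 2)
    (hsq : Squarefree n) (h3n : ¬ 3 ∣ n) (hv : v ≠ 0) {g0 g1 g2 : ℂ → Ei → ℂ}
    (T : TriG c n (bt u v) g0 g1 g2) (P : PtsG c n (bt u v))
    {L : Type} [Field L] [NumberField L] (th : L)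
    (hd : Module.finrank ℚ L = 3)
    (hth : th ^ 3 = 3 * (n : L) * th + (n : L) * (u : L)) :
    Finite (ED ((c : ℕ) : L)).toAffine.Point ∧
    (∀ (k : ℕ) (y : Sha (ED ((c : ℕ) : L))), 3 ^ k • y = 0 → 3 • y = 0) ∧
    ∃ G : ℂ → ℂ, Differentiable ℂ G ∧ G 1 ≠ 0 ∧ ∀ s : ℂ, 3 / 2 < s.re →
      HasProd (fun p : {p : HeightOneSpectrum (𝓞 L) |
        ((3 * c * n : ℕ) : 𝓞 L) ∉ p.asIdeal} => ef ((c : ℕ) : 𝓞 L) s p.1) (G s) := by
  have hn0 : n ≠ 0 := T.n0
  -- the field `L`
  have hnr : ∀ t : ℚ, algebraMap ℚ L t ≠ th := by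
    rintro t rfl
    refine no_rat hn hsq h3n hv t ?_
    have h1 : algebraMap ℚ L (t ^ 3) = algebraMap ℚ L (3 * (n : ℚ) * t + (n : ℚ) * (u : ℚ)) := by
      rw [map_pow, map_add, map_mul, map_mul, map_mul, map_natCast, map_intCast, map_ofNat]
      exact hth
    exact (algebraMap ℚ L).injective h1
  have hgen := gen_th hnr hd
  have hgalQ := gal_th hn hth hnr hn0 hd
  have hne := sub_ne hth hnr hn0
  have hkey := key_th hn hth
  -- the field `F = L(ω)`
  have hcyc : IsCyclotomicExtension {3} ℚ (CyclotomicField 3 ℚ) :=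
    Pool.Agent.Y948.CTP.cyc_rat _ _ (CyclotomicField.isCyclotomicExtension 3 ℚ)
  obtain ⟨⟨j, -⟩, -⟩ := Pool.Agent.Y455.CTK.jex (CyclotomicField 3 ℚ)
  obtain ⟨F, hF1, hF2, hF3, hF4⟩ : ∃ (F : Type) (_ : Field F) (_ : NumberField F) (_ : Algebra L F),
      IsCyclotomicExtension {3} L F :=
    ⟨CyclotomicField 3 L, inferInstance, inferInstance, inferInstance, inferInstance⟩
  have hirrQ : Irreducible (cyclotomic 3 ℚ) := cyclotomic.irreducible_rat (by norm_num)
  have hζ : IsPrimitiveRoot (IsCyclotomicExtension.zeta 3 ℚ (CyclotomicField 3 ℚ)) 3 :=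
    IsCyclotomicExtension.zeta_spec 3 ℚ (CyclotomicField 3 ℚ)
  have hζF : IsPrimitiveRoot (IsCyclotomicExtension.zeta 3 L F) 3 :=
    IsCyclotomicExtension.zeta_spec 3 L F
  let φ : CyclotomicField 3 ℚ →ₐ[ℚ] F := (hζ.embeddingsEquivPrimitiveRoots F hirrQ).symm
    ⟨_, (mem_primitiveRoots (by norm_num)).2 hζF⟩
  have hφ : φ (IsCyclotomicExtension.zeta 3 ℚ (CyclotomicField 3 ℚ)) =
      IsCyclotomicExtension.zeta 3 L F := by
    have h1 := hζ.embeddingsEquivPrimitiveRoots_apply_coe F hirrQ φ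
    rw [← h1, Equiv.apply_symm_apply]
  let hAl : Algebra (CyclotomicField 3 ℚ) F := φ.toRingHom.toAlgebra
  have hω := om_K j
  -- the field over `L` generated by `ω`
  have hgenL : ∀ M : Subfield F, (∀ y : L, algebraMap L F y ∈ M) →
      IsCyclotomicExtension.zeta 3 L F ∈ M → M = ⊤ := by
    intro M h4 h5
    have h6 : (Algebra.adjoin L {IsCyclotomicExtension.zeta 3 L F} : Subalgebra L F) = ⊤ :=
      IsCyclotomicExtension.adjoin_primitive_root_eq_top hζF
    rw [eq_top_iff]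
    intro y _
    have h7 : y ∈ (Algebra.adjoin L {IsCyclotomicExtension.zeta 3 L F} : Subalgebra L F) := by
      rw [h6]; trivial
    refine Algebra.adjoin_induction (p := fun z _ => z ∈ M) ?_ ?_ ?_ ?_ h7
    · rintro z hz
      rw [Set.mem_singleton_iff.1 hz]
      exact h5
    · exact h4
    · intro x y _ _ hx hy
      exact M.add_mem hx hy
    · intro x y _ _ hx hy
      exact M.mul_mem hx hy
  -- the cube root
  set t : F := algebraMap L F th with ht
  have hne' : t ^ 2 - (n : F) ≠ 0 := by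
    intro h
    apply hne
    apply (algebraMap L F).injective
    rw [map_sub, map_pow, map_natCast, map_zero]
    exact h
  have hkey' : (t ^ 2 - 4 * (n : F)) * (t ^ 2 - (n : F)) ^ 2 =
      -3 * (n : F) ^ 2 * (v : F) ^ 2 := by
    have h1 := congrArg (algebraMap L F) hkey
    simpa only [map_mul, map_sub, map_pow, map_neg, map_natCast, map_intCast, map_ofNat] using h1
  have hth' : t ^ 3 = 3 * (n : F) * t + (n : F) * (u : F) := by
    have h1 := congrArg (algebraMap L F) hth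
    simpa only [map_mul, map_add, map_pow, map_natCast, map_intCast, map_ofNat] using h1
  let io' : Ei →+* F := (algebraMap (𝓞 F) F).comp (io F j)
  have hio' : ∀ z, io' z = ((io F j z : 𝓞 F) : F) := fun z => rfl
  set om : F := io' w with hom
  have hom2 : om ^ 2 + om + 1 = 0 := by
    have h : (w : Ei) ^ 2 + w + 1 = 0 := by decide
    rw [hom, ← map_pow, ← map_add, ← map_one io', ← map_add, h, map_zero]
  set s : F := 1 + 2 * om with hs
  have hs2 : s ^ 2 = -3 := by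
    rw [hs]
    linear_combination 4 * hom2
  have h2 : (2 : F) ≠ 0 := two_ne_zero
  have hB : 2 * io' (bt u v) = (u : F) + (v : F) * s := by
    have h1 : 2 * bt u v = ((u : ℤ) : Ei) + (v : Ei) * (1 + 2 * w) := by
      linear_combination bt_add hn + bt_sub hn
    have h3 := congrArg io' h1
    simpa only [map_mul, map_add, map_ofNat, map_intCast, map_one] using h3
  obtain ⟨R, hR⟩ : ∃ R : F, R = (n : F) * (v : F) * s / (t ^ 2 - (n : F)) := ⟨_, rfl⟩
  have hR1 : R * (t ^ 2 - (n : F)) = (n : F) * (v : F) * s := by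
    rw [hR, div_mul_cancel₀ _ hne']
  have hR2 : R ^ 2 = t ^ 2 - 4 * (n : F) := by
    rw [hR, div_pow, div_eq_iff (pow_ne_zero 2 hne')]
    linear_combination -hkey' + (n : F) ^ 2 * (v : F) ^ 2 * hs2
  obtain ⟨x, hx⟩ : ∃ x : F, x = (t + R) / 2 := ⟨_, rfl⟩
  obtain ⟨y, hy⟩ : ∃ y : F, y = (t - R) / 2 := ⟨_, rfl⟩
  have hxy : x * y = (n : F) := by
    rw [hx, hy]
    field_simp
    linear_combination -hR2
  have hx2 : 2 * x = t + R := by rw [hx]; field_simp
  have hxt : x + y = t := by rw [hx, hy]; field_simp; ring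
  have hx3 : x ^ 3 = io' (((n : ℕ) : Ei) * bt u v) := by
    have h8 : (8 : F) ≠ 0 := by norm_num
    apply mul_left_cancel₀ h8
    rw [map_mul, map_natCast]
    have e1 : 8 * x ^ 3 = (t + R) ^ 3 := by rw [← hx2]; ring
    rw [e1]
    linear_combination 4 * hth' + (3 * t + R) * hR2 + 4 * hR1 - 4 * (n : F) * hB
  have hn0F : (n : F) ≠ 0 := Nat.cast_ne_zero.2 hn0
  have hx0 : x ≠ 0 := by
    rintro rfl
    rw [zero_mul] at hxy
    exact hn0F hxy.symm
  have hxK : x ^ 3 = algebraMap (CyclotomicField 3 ℚ) F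
      ((j (((n : ℕ) : Ei) * bt u v) : 𝓞 (CyclotomicField 3 ℚ)) : CyclotomicField 3 ℚ) := hx3
  -- generators
  have hgen' : ∀ M : Subfield F, (∀ k : CyclotomicField 3 ℚ, algebraMap (CyclotomicField 3 ℚ) F k ∈ M) →
      x ∈ M → M = ⊤ := by
    intro M h1 h3
    have hy' : y = (n : F) / x := by
      rw [eq_div_iff hx0, mul_comm, hxy]
    have htM : t ∈ M := by
      rw [← hxt, hy']
      exact M.add_mem h3 (M.div_mem (natCast_mem M n) h3)
    have h4 := hgen (M.comap (algebraMap L F)) htM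
    refine hgenL M (fun y => ?_) ?_
    · have h5 : y ∈ M.comap (algebraMap L F) := by rw [h4]; trivial
      exact h5
    · rw [← hφ]
      exact h1 _
  -- degrees
  have htq : IsScalarTower ℚ (CyclotomicField 3 ℚ) F :=
    IsScalarTower.of_algebraMap_eq fun q => (φ.commutes q).symm
  have htq' : IsScalarTower ℚ L F := IsScalarTower.of_algebraMap_eq fun q => by simp
  have e1 : Module.finrank ℚ (CyclotomicField 3 ℚ) * Module.finrank (CyclotomicField 3 ℚ) F =
      Module.finrank ℚ F := Module.finrank_mul_finrank ℚ _ F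
  have e2 : Module.finrank ℚ L * Module.finrank L F = Module.finrank ℚ F :=
    Module.finrank_mul_finrank ℚ L F
  have e3 : Module.finrank ℚ (CyclotomicField 3 ℚ) = 2 := by
    rw [IsCyclotomicExtension.finrank (CyclotomicField 3 ℚ) hirrQ]
    decide
  have e4 : Module.finrank L F ≤ 2 := cyc_le
  obtain ⟨hfd, hgal⟩ := gal3 (F := F) hω (I := Unit)
    (fun _ => ((j (((n : ℕ) : Ei) * bt u v) : 𝓞 (CyclotomicField 3 ℚ)) : CyclotomicField 3 ℚ))
    (fun _ => x) (fun _ => hxK) (fun M h1 h3 => hgen' M h1 (h3 ()))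
  have e5 : Module.finrank (CyclotomicField 3 ℚ) F = 3 ∧ Module.finrank L F = 2 := by
    have h1 : 0 < Module.finrank (CyclotomicField 3 ℚ) F := Module.finrank_pos
    rw [e3] at e1
    rw [hd] at e2
    omega
  -- points and Tate-Shafarevich group
  obtain ⟨g1, g2⟩ := towerG (K := CyclotomicField 3 ℚ) j T.c0 hn0 T.mul P (F := F) x hxK hgen'
  refine ⟨pts_sub (F := F) g1, ?_, ?_⟩
  · intro k z hz
    have h1 := shpD (F := F) c 1 e5.2 (fun m y hy => by rw [pow_one]; exact g2 m y hy) k z hz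
    rwa [pow_one] at h1
  -- the context
  have hint : IsIntegral ℤ x := by
    refine IsIntegral.of_pow (n := 3) (by norm_num) ?_
    rw [hx3]
    exact RingOfIntegers.isIntegral_coe _
  have C : Cx (K := CyclotomicField 3 ℚ) L j (((n : ℕ) : Ei) * bt u v) (⟨x, hint⟩ : 𝓞 F) := by
    refine ⟨hgal, IsCyclotomicExtension.isGalois {3} L F, hgalQ, e5.1, e5.2, ?_, ?_, ?_⟩
    · apply RingOfIntegers.ext
      exact hx3
    · intro M h1 h3
      exact hgen' M h1 h3
    · intro g hg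
      have hgw : g ((io F j w : 𝓞 F) : F) = ((io F j w : 𝓞 F) : F) :=
        congrArg (fun z : 𝓞 F => (z : F)) hg
      have h5 := hgenL (RingHom.eqLocusField (g : F →+* F) (RingHom.id F))
        (fun y => g.commutes y) (by
          have hw : (((io F j w : 𝓞 F) : F)) ^ 2 + ((io F j w : 𝓞 F) : F) + 1 = 0 := hom2
          have h6 : (IsCyclotomicExtension.zeta 3 L F) ^ 3 = (1 : F) ^ 3 := by
            rw [hζF.pow_eq_one, one_pow]
          obtain ⟨c, hc⟩ := cube_roots hw h6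
          show g _ = _
          rw [hc, mul_one, map_pow, hgw]
          rfl)
      ext y
      have h7 : y ∈ RingHom.eqLocusField (g : F →+* F) (RingHom.id F) := by rw [h5]; trivial
      exact h7
  exact eulG T C

end Pool.Agent.Run7.h741.CR
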